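import Mathlib
import Pool.Agent.H507_U.Forced
import Pool.Agent.H507_U.Negative
import Pool.Agent.H507_U.Positive
import Pool.Agent.R594.Star.CH

set_option autoImplicit false

/-!
# MP_57a173_lc, Q1: Ulam's question on projective sets over a countable family is independent of ZFC

Is there a countable sequence `A` of subsets of a set `E` of cardinality `𝔠` such that the Borel sets
over `A` have arbitrarily high class numbers and all projective sets over `A` are Borel over `A`?

Positive side. The continuum hypothesis implies that there is such a sequence, and the continuum
hypothesis holds in the extension by some forcing notion (which preserves `ω₁`).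
Proof: for every countable ordinal `β` let `T β` be a well-founded tree of rank `β + 2`. Let `W` be the
space of all labellings of the finite sequences by truth values for which no node and its parent are
both true; for a generic labelling a node is true if and only if all its children are false.
Choose generic functions `h β : ℕ → ℕ`, which give generic enumerations `g β` of the leaves of `T β`,
and generic labellings `v ν`, and let `x ν` be the restriction of `v ν` to the leaves of `T β`,
as an element of the Cantor space via `g β`; here `β = τ ν` is the type of `ν`, and every type
occurs uncountably often. Over the set `X` of these points the label of the root of `T β` is not given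
by a Borel set of class less than the rank of `T β`, by a rank argument. But for every Borel set `R` of
pairs all but countably many types look like the trivial type (Cohen points), and so the
projection of `R ∩ (X × X)` is Borel in `X`.

Negative side. The combinatorial statement `Phi` implies that there is no such sequence of subsets
of any set `E`, and it is forced by some forcing notion, a form of the iteration, with countable
supports, of Laver forcing (`Pool.Agent.Helper467_LV.GG`).
Proof of the first part: let `X` be the image of `E` in the Cantor space under the characteristic
function of the sequence `A`. If all projective sets are Borel then, by a diagonal argument, there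
is no Borel function from `X` onto the Cantor space. For every `w` in `W`, a Borel function `g w` is
defined from the candidates `b w` such that for every `t` there are infinite sets `A w s` for which
the following holds: if a point `z` is guessed along `y` by `b w` and `y` is in the tree given by
`A w`, then `z` is in a countable set `C w`, or `g w z = t`. Let `t` be outside the image of `X`
under `g w`. Then `X` is a subset of the union of the sets `C w`, `Lo a w`, for some `a`. By the
second part of `Phi` the functions indexed by this union are bounded modulo finite sets, and
every Borel subset of `X` is an `F_σ` set in `X`.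

See `Pool.Agent.H507_U.Defs` for `Q1` and `Phi`, `Pool.Agent.H507_U.PhiN` for the forcing version of
`Phi`, and `Pool.Agent.Helper126.Sus.Forc` for the forcing language.
-/

namespace Pool.Agent.Results.MP_57a173_lc.Independence

open Cardinal
open Pool.Agent.H507_U Pool.Agent.Helper126.Sus.Forc
open Pool.Agent.R594.Star (OmegaOnePreserved ContinuumHypothesis)

universe u

/-- The continuum hypothesis: some family of functions from `ℕ` to `ℕ`, indexed by the countable
ordinals, contains every function from `ℕ` to `ℕ`. -/
def CH : Prop := ∃ F : K1 → ℕ → ℕ, ∀ f : ℕ → ℕ, ∃ α, F α = f

/-- Q1 is independent of ZFC. (1) The continuum hypothesis implies Q1 for every set `E` of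
cardinality continuum, and it is forced, together with the preservation of `ω₁`, by some forcing
notion. (2) `Phi` implies the negation of Q1 for every set `E`, and it is forced by some forcing
notion. -/
theorem result :
    ((∀ E : Type u, #E = 𝔠 → CH → Q1 E) ∧
      ∃ (P : Type) (_ : Preorder P), Nonempty P ∧
        ∀ p : P, p ∈ OmegaOnePreserved P ∧ p ∈ ContinuumHypothesis P) ∧
    ((∀ (W K : Type) (Lo : K → W → Prop) (N : W → List ℕ → ℕ) (b : W → List ℕ → ℕ → ℕ → Prop),
        Phi W K Lo N b → ∀ E : Type u, ¬ Q1 E) ∧
      ∃ (P : Type) (_ : Preorder P) (W K : Type) (Lo : K → W → Prop) (N : W → List ℕ → ℕ)
        (b : W → List ℕ → ℕ → ℕ → Set P), Nonempty P ∧ ∀ p : P, p ∈ PhiN Lo N b) :=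
  ⟨⟨fun E hE h => q1_of_continuum (Pool.Agent.R594.Star.ch_iff.1 h) E hE,
      Pool.Agent.R594.Star.exists_forcing_ch⟩,
    ⟨fun _ _ _ _ _ h E => not_Q1 h E,
      ⟨Pool.Agent.Helper467_LV.GG Pool.Agent.Helper467_LV.II, inferInstance,
        Pool.Agent.Helper467_LV.Wd, Pool.Agent.Helper467_LV.II, Pool.Agent.Helper467_LV.Below,
        Pool.Agent.Helper467_LV.Nw, Pool.Agent.Helper467_LV.bw, ⟨1⟩, phi_forced⟩⟩⟩

end Pool.Agent.Results.MP_57a173_lc.Independence
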